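import Pool.Agent.H81.Ins2

set_option autoImplicit false

namespace Pool.Agent.Results.MP_d0c340_co.FewVertices

open Set Module Pool.Agent.H81.Ins

/-- every set of `k` vertices is the vertex set of a face -/
def Neighborly {d : ℕ} (k : ℕ) (P : Set (EuclideanSpace ℝ (Fin d))) : Prop :=
  ∀ A ⊆ P.extremePoints ℝ, A.ncard = k → IsExposed ℝ P (convexHull ℝ A)

/-- some polytope with all vertices on a sphere has the same faces under a vertex bijection -/
def Inscribable {d : ℕ} (P : Set (EuclideanSpace ℝ (Fin d))) : Prop :=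
  ∃ (T : Finset (EuclideanSpace ℝ (Fin d))) (c : EuclideanSpace ℝ (Fin d)) (r : ℝ),
    (T : Set (EuclideanSpace ℝ (Fin d))) ⊆ Metric.sphere c r ∧
    ∃ e : EuclideanSpace ℝ (Fin d) → EuclideanSpace ℝ (Fin d),
      BijOn e (P.extremePoints ℝ)
        ((convexHull ℝ (T : Set (EuclideanSpace ℝ (Fin d)))).extremePoints ℝ) ∧
      ∀ A ⊆ P.extremePoints ℝ, (IsExposed ℝ P (convexHull ℝ A) ↔
        IsExposed ℝ (convexHull ℝ (T : Set (EuclideanSpace ℝ (Fin d)))) (convexHull ℝ (e '' A)))

lemma support {ι : Type} [Fintype ι] {K : Set (ι → ℝ)} (hK : Convex ℝ K) {x : ι → ℝ} (hx : x ∈ K)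
    (h : x ∉ interior K) : ∃ c : ι → ℝ, c ≠ 0 ∧ ∀ a ∈ K, ∑ i, c i * x i ≤ ∑ i, c i * a i := by
  classical
  obtain ⟨f, f0, hf⟩ : ∃ f : (ι → ℝ) →ₗ[ℝ] ℝ, f ≠ 0 ∧ ∀ a ∈ K, f a ≤ f x := by
    by_cases hi : (interior K).Nonempty
    · obtain ⟨f, f0, hf⟩ := geometric_hahn_banach_of_nonempty_interior_point hK h hi
      exact ⟨f.toLinearMap, fun h => f0 (ContinuousLinearMap.ext (LinearMap.congr_fun h)), hf⟩
    · rw [hK.interior_nonempty_iff_affineSpan_eq_top,
        AffineSubspace.affineSpan_eq_top_iff_vectorSpan_eq_top_of_nonempty ℝ _ _ ⟨x, hx⟩] at hi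
      obtain ⟨f, f0, hf⟩ := Submodule.exists_le_ker_of_lt_top _ (lt_top_iff_ne_top.mpr hi)
      refine ⟨f, f0, fun a ha => ?_⟩
      have : f (a - x) = 0 := hf (vsub_mem_vectorSpan ℝ ha hx)
      rw [map_sub] at this
      linarith
  have e : ∀ a, ∑ i, -f (Pi.single i 1) * a i = -f a := fun a => by
    conv_rhs => rw [pi_eq_sum_univ' a]
    simp [mul_comm]
  refine ⟨fun i => -f (Pi.single i 1), fun h0 => f0 (LinearMap.ext fun a => ?_), fun a ha => ?_⟩
  · have := e a
    simp only [show ∀ i, -f (Pi.single i 1) = 0 from congrFun h0] at this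
    simpa using this.symm
  · rw [e, e]; linarith [hf a ha]

theorem result (d k : ℕ) (hk : k ≤ d) (S : Finset (EuclideanSpace ℝ (Fin d)))
    (hS : (interior (convexHull ℝ (S : Set (EuclideanSpace ℝ (Fin d))))).Nonempty)
    (hN : Neighborly k (convexHull ℝ (S : Set (EuclideanSpace ℝ (Fin d)))))
    (hn : ((convexHull ℝ (S : Set (EuclideanSpace ℝ (Fin d)))).extremePoints ℝ).ncard ≤
      d + k + 1) :
    Inscribable (convexHull ℝ (S : Set (EuclideanSpace ℝ (Fin d)))) := by
  classical
  rcases subsingleton_or_nontrivial (EuclideanSpace ℝ (Fin d)) with h | h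
  · exact ⟨S, 0, 0, fun x _ => by simpa using Subsingleton.elim x 0, id, Set.bijOn_id _,
      fun A _ => by rw [Set.image_id]⟩
  have hh := hull_ext S
  set V := (convexHull ℝ (S : Set (E d))).extremePoints ℝ with hV
  have hf : V.Finite := S.finite_toSet.subset extremePoints_convexHull_subset
  have := hf.fintype
  have hcard : Fintype.card V ≤ d + k + 1 := by
    rwa [← Nat.card_eq_fintype_card, Nat.card_coe_set_eq]
  have hD : finrank ℝ (E d × ℝ →ₗ[ℝ] ℝ) = d + 1 := by simp [Module.finrank_linearMap]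
  have inj : ∀ f : E d × ℝ →ₗ[ℝ] ℝ, (∀ i : V, f (i, 1) = 0) → f = 0 := by
    intro f h0
    rw [← hh] at hS
    have h1 := interior_convexHull_nonempty_iff_affineSpan_eq_top.mp hS
    have h2 : ∀ x, f (x, 1) = 0 := fun x => by
      have hx : x ∈ affineSpan ℝ V := h1 ▸ AffineSubspace.mem_top ℝ _ x
      refine affineSpan_induction hx (fun x hx => h0 ⟨x, hx⟩) fun c u v w a b e => ?_
      have : ((c • (u -ᵥ v) +ᵥ w, 1) : E d × ℝ) = c • ((u, 1) - (v, 1)) + (w, 1) := by simp
      rw [this, map_add, map_smul, map_sub, a, b, e]; simp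
    refine LinearMap.ext fun ⟨y, t⟩ => ?_
    have : ((y, t) : E d × ℝ) = (y, 1) + (t - 1) • (0, 1) := by simp
    rw [this, map_add, map_smul, h2, h2]; simp
  have ker : ∀ M : Finset V, M.card ≤ d → ∃ f : E d × ℝ →ₗ[ℝ] ℝ, f ≠ 0 ∧ ∀ i ∈ M, f (i, 1) = 0 := by
    intro M hM
    let R : (E d × ℝ →ₗ[ℝ] ℝ) →ₗ[ℝ] (M → ℝ) :=
      LinearMap.pi fun i => LinearMap.applyₗ ((i.1.1, 1) : E d × ℝ)
    obtain ⟨f, f1, f0⟩ := (Submodule.ne_bot_iff _).mp
      (R.ker_ne_bot_of_finrank_lt (by rw [hD]; simp; omega))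
    exact ⟨f, f0, fun i hi => congrFun f1 ⟨i, hi⟩⟩
  have hlow : d < Fintype.card V := by
    by_contra hc
    obtain ⟨f, f0, f1⟩ := ker Finset.univ (not_lt.mp hc)
    exact f0 (inj f fun i => f1 i (Finset.mem_univ i))
  let Z : Set (V → ℝ) := range fun (f : E d × ℝ →ₗ[ℝ] ℝ) (i : V) => f (i, 1) ^ 2
  have hint : (1 : V → ℝ) ∈ interior (convexHull ℝ Z) := by
    by_contra hc
    obtain ⟨c, c0, hc⟩ := support (convex_convexHull ℝ Z)
      (subset_convexHull ℝ Z ⟨LinearMap.snd ℝ _ _, by ext; simp⟩) hc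
    have q : ∀ f : E d × ℝ →ₗ[ℝ] ℝ, ∑ i, c i ≤ ∑ i : V, c i * f (i, 1) ^ 2 := fun f => by
      simpa using hc _ (subset_convexHull ℝ Z ⟨f, rfl⟩)
    have s0 : ∑ i, c i = 0 := by
      have a := q 0
      have b := q ((2 : ℝ) • LinearMap.snd ℝ _ _)
      simp [← Finset.sum_mul] at a b
      linarith
    rw [s0] at q
    have rad : ∀ f : E d × ℝ →ₗ[ℝ] ℝ, ∑ i : V, c i * f (i, 1) = 0 := fun f => by
      have := discrim_le_zero (a := ∑ i : V, c i * f (i, 1) ^ 2)
        (b := 2 * ∑ i : V, c i * f (i, 1)) (c := 0) fun t => by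
          refine (q (LinearMap.snd ℝ _ _ + t • f)).trans_eq ?_
          rw [← s0, Finset.sum_mul, Finset.mul_sum, Finset.sum_mul, ← Finset.sum_add_distrib,
            ← Finset.sum_add_distrib]
          exact Finset.sum_congr rfl fun i _ => by simp; ring
      rw [discrim] at this
      nlinarith
    obtain ⟨p, hp⟩ : ∃ p, 0 < c p := by
      by_contra hc
      push Not at hc
      exact c0 (funext fun i => (Finset.sum_eq_zero_iff_of_nonpos fun i _ => hc i).mp s0 i
        (Finset.mem_univ i))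
    let N := Finset.univ.filter fun i => c i < 0
    by_cases hNk : N.card ≤ k
    · obtain ⟨A, a1, a2, a3⟩ := Finset.exists_subsuperset_card_eq (s := N)
        (t := Finset.univ.erase p) (fun i hi => by
          simp only [N, Finset.mem_filter] at hi
          simp only [Finset.mem_erase, Finset.mem_univ, and_true]
          rintro rfl; linarith [hi.2]) hNk (by rw [Finset.card_erase_of_mem (Finset.mem_univ p), Finset.card_univ]; omega)
      have hA : Subtype.val '' (A : Set V) ⊆ V := by rintro _ ⟨i, -, rfl⟩; exact i.2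
      have := hN _ hA (by rw [ncard_image_of_injective _ Subtype.val_injective, ncard_coe_finset, a3])
      rw [← hh, crit hA (by rw [hh])] at this
      obtain ⟨f, f1, f2⟩ := this
      have f3 : ∀ i : V, f (i, 1) = 0 ↔ i ∈ A := fun i => by
        rw [f2 i i.2, Subtype.val_injective.mem_set_image, Finset.mem_coe]
      refine absurd (rad f) (ne_of_gt (Finset.sum_pos' (fun i _ => ?_) ⟨p, Finset.mem_univ _, ?_⟩))
      · by_cases hi : c i < 0
        · rw [(f3 i).mpr (a1 (by simpa [N] using hi)), mul_zero]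
        · exact mul_nonneg (not_lt.mp hi) (f1 i i.2)
      · exact mul_pos hp ((f1 p p.2).lt_of_ne' fun e => by simpa using a2 ((f3 p).mp e))
    · obtain ⟨f, f0, f1⟩ := ker Nᶜ (by rw [Finset.card_compl]; omega)
      have t : ∀ i : V, c i * f (i, 1) ^ 2 ≤ 0 := fun i => by
        by_cases hi : c i < 0
        · exact mul_nonpos_of_nonpos_of_nonneg hi.le (sq_nonneg _)
        · rw [f1 i (by simpa [N] using hi)]; simp
      have := (Finset.sum_eq_zero_iff_of_nonpos fun i _ => t i).mp
        ((Finset.sum_nonpos fun i _ => t i).antisymm (q f))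
      refine f0 (inj f fun i => ?_)
      by_cases hi : c i < 0
      · simpa [hi.ne] using this i (Finset.mem_univ i)
      · exact f1 i (by simpa [N] using hi)
  have ev : ∀ᶠ ε in nhds (0 : ℝ), (fun i : V => 1 - ε * inner ℝ i.1 i.1) ∈ convexHull ℝ Z := by
    have : Continuous fun (ε : ℝ) (i : V) => 1 - ε * inner ℝ i.1 i.1 := by fun_prop
    refine this.continuousAt.preimage_mem_nhds ?_
    have e : (fun i : V => 1 - (0:ℝ) * inner ℝ i.1 i.1) = 1 := by ext; simp
    rw [e]; exact mem_interior_iff_mem_nhds.mp hint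
  obtain ⟨ε, h1, hε⟩ := ((ev.filter_mono (nhdsWithin_le_nhds (s := Ioi 0))).and
    self_mem_nhdsWithin).exists
  obtain ⟨κ, _, w, z, w0, -, hz, e⟩ := mem_convexHull_iff_exists_fintype.1 h1
  choose f hf using hz
  let B : LinearMap.BilinForm ℝ (E d × ℝ) := LinearMap.mk₂ ℝ
    (fun x y => x.2 * y.2 - ε * inner ℝ x.1 y.1 - ∑ j, w j * (f j x * f j y))
    (fun x y z => by
      simp only [Prod.fst_add, Prod.snd_add, inner_add_left, map_add, add_mul, mul_add,
        Finset.sum_add_distrib]; ring)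
    (fun t x y => by
      simp only [Prod.smul_fst, Prod.smul_snd, real_inner_smul_left, map_smul, smul_eq_mul,
        mul_sub, Finset.mul_sum]
      rw [Finset.sum_congr rfl fun j _ => show w j * (t * f j x * f j y) =
        t * (w j * (f j x * f j y)) by ring]; ring)
    (fun x y z => by
      simp only [Prod.fst_add, Prod.snd_add, inner_add_right, map_add, mul_add,
        Finset.sum_add_distrib]; ring)
    (fun t x y => by
      simp only [Prod.smul_fst, Prod.smul_snd, real_inner_smul_right, map_smul, smul_eq_mul,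
        mul_sub, Finset.mul_sum]
      rw [Finset.sum_congr rfl fun j _ => show w j * (f j x * (t * f j y)) =
        t * (w j * (f j x * f j y)) by ring]; ring)
  refine inscribe S (LinearMap.snd ℝ _ _) (fun h => by simpa using LinearMap.congr_fun h (0, 1)) B
    (fun x y => ?_) (fun ⟨y, t⟩ h0 hw => ?_) fun v hv => ⟨by simp, ?_⟩
  · simp only [B, LinearMap.mk₂_apply, real_inner_comm x.1, mul_comm x.2, mul_comm (f _ x)]
  · have ht : t = 0 := h0
    subst ht
    have hy : y ≠ 0 := fun e => hw (by simp [e])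
    have := mul_pos (show 0 < ε from hε) (real_inner_self_pos.mpr hy)
    have := Finset.sum_nonneg fun j (_ : j ∈ Finset.univ) =>
      mul_nonneg (w0 j) (mul_self_nonneg (f j (y, 0)))
    simp only [B, LinearMap.mk₂_apply]
    linarith
  · have := congrFun e ⟨v, hv⟩
    simp only [Finset.sum_apply, Pi.smul_apply, smul_eq_mul, ← hf, sq] at this
    simp only [B, LinearMap.mk₂_apply]
    linarith

end Pool.Agent.Results.MP_d0c340_co.FewVertices
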